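import Pool.Agent.Helper88.Burn.Stab

/-!
MP_70ec2f_al (graded Burnside): the metric of the quotient by the group `K`, lifting of polygons,
and the four point inequality.
-/

set_option autoImplicit false

namespace Pool.Agent.Helper88.Burn

/-- an invariant metric adapted to a rotation system -/
structure MetSys {G P : Type*} [Group G] [MulAction G P] (S : RotSys G P) where
  d : P → P → ℕ
  d_self : ∀ x, d x x = 0
  eq_of_d : ∀ {x y}, d x y = 0 → x = y
  d_symm : ∀ x y, d x y = d y x
  d_tri : ∀ x y z, d x z ≤ d x y + d y z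
  d_smul : ∀ (g : G) x y, d (g • x) (g • y) = d x y
  bgi : ∀ {v y z : P}, v ∈ S.C → v ≠ y → v ≠ z → S.θ < |S.D v y z| → d y z = d y v + d v z

namespace MetSys

variable {G P : Type*} [Group G] [MulAction G P] {S : RotSys G P} (M : MetSys S)

/-- distance modulo `K` -/
noncomputable def dK (x y : P) : ℕ := sInf {n | ∃ k ∈ S.K, n = M.d x (k • y)}

lemma dK_le {k : G} (hk : k ∈ S.K) (x y : P) : M.dK x y ≤ M.d x (k • y) :=
  Nat.sInf_le ⟨k, hk, rfl⟩

lemma dK_le_d (x y : P) : M.dK x y ≤ M.d x y := by
  have := M.dK_le (one_mem S.K) x y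
  rwa [one_smul] at this

lemma exists_dK (x y : P) : ∃ k ∈ S.K, M.d x (k • y) = M.dK x y := by
  have h : {n | ∃ k ∈ S.K, n = M.d x (k • y)}.Nonempty := ⟨_, 1, one_mem _, rfl⟩
  obtain ⟨k, hk, h1⟩ := Nat.sInf_mem h
  exact ⟨k, hk, h1.symm⟩

lemma dK_smul_le (g : G) (x y : P) : M.dK (g • x) (g • y) ≤ M.dK x y := by
  obtain ⟨k, hk, h⟩ := M.exists_dK x y
  have h1 := M.dK_le (RotSys.K_normal.conj_mem k hk g) (g • x) (g • y)
  rw [← mul_smul, inv_mul_cancel_right, mul_smul, M.d_smul, h] at h1
  exact h1

lemma dK_smul (g : G) (x y : P) : M.dK (g • x) (g • y) = M.dK x y := by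
  refine le_antisymm (M.dK_smul_le g x y) ?_
  have := M.dK_smul_le g⁻¹ (g • x) (g • y)
  rwa [inv_smul_smul, inv_smul_smul] at this

lemma dK_smul_right_le {k : G} (hk : k ∈ S.K) (x y : P) : M.dK x (k • y) ≤ M.dK x y := by
  obtain ⟨l, hl, h⟩ := M.exists_dK x y
  have h1 := M.dK_le (mul_mem hl (inv_mem hk)) x (k • y)
  rw [mul_smul, inv_smul_smul, h] at h1
  exact h1

lemma dK_smul_right {k : G} (hk : k ∈ S.K) (x y : P) : M.dK x (k • y) = M.dK x y := by
  refine le_antisymm (M.dK_smul_right_le hk x y) ?_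
  have := M.dK_smul_right_le (inv_mem hk) x (k • y)
  rwa [inv_smul_smul] at this

lemma dK_symm (x y : P) : M.dK x y = M.dK y x := by
  have key : ∀ x y, M.dK x y ≤ M.dK y x := by
    intro x y
    obtain ⟨k, hk, h⟩ := M.exists_dK y x
    have h1 := M.dK_le (inv_mem hk) x y
    have h2 := M.d_smul k x (k⁻¹ • y)
    rw [smul_inv_smul, M.d_symm, h] at h2
    omega
  exact le_antisymm (key x y) (key y x)

lemma dK_smul_left {k : G} (hk : k ∈ S.K) (x y : P) : M.dK (k • x) y = M.dK x y := by
  rw [M.dK_symm, M.dK_smul_right hk, M.dK_symm]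

lemma dK_self (x : P) : M.dK x x = 0 := by
  have := M.dK_le_d x x
  rw [M.d_self] at this
  omega

lemma dK_tri (x y z : P) : M.dK x z ≤ M.dK x y + M.dK y z := by
  obtain ⟨k, hk, h⟩ := M.exists_dK x y
  obtain ⟨l, hl, h'⟩ := M.exists_dK y z
  have h1 := M.dK_le (mul_mem hk hl) x z
  have h2 := M.d_tri x (k • y) ((k * l) • z)
  rw [mul_smul] at h2 h1
  rw [M.d_smul] at h2
  omega

lemma exists_of_dK_eq_zero {x y : P} (h : M.dK x y = 0) : ∃ k ∈ S.K, x = k • y := by
  obtain ⟨k, hk, h1⟩ := M.exists_dK x y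
  exact ⟨k, hk, M.eq_of_d (by omega)⟩

/-- lifting of polygons -/
theorem polygon (hL : S.Large) (N : ℕ) (hN : ∀ v ∈ S.C, N * S.θ ≤ S.h v) (x : ℕ → P)
    (hx : ∃ k ∈ S.K, x N = k • x 0) :
    ∃ p : ℕ → P, p 0 = x 0 ∧ (∀ i, ∃ k ∈ S.K, p i = k • x i) ∧
      (∀ i < N, M.d (p i) (p (i + 1)) = M.dK (x i) (x (i + 1))) ∧ p N = p 0 := by
  have key : ∀ (n : ℕ) (p : ℕ → P), (S.cx (p 0) (p N)).toNat = n → p 0 = x 0 →
      (∀ i, ∃ k ∈ S.K, p i = k • x i) →
      (∀ i < N, M.d (p i) (p (i + 1)) = M.dK (x i) (x (i + 1))) →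
      ∃ p : ℕ → P, p 0 = x 0 ∧ (∀ i, ∃ k ∈ S.K, p i = k • x i) ∧
      (∀ i < N, M.d (p i) (p (i + 1)) = M.dK (x i) (x (i + 1))) ∧ p N = p 0 := by
    intro n
    induction n using Nat.strong_induction_on with
    | _ n ih =>
      intro p hn h0 hp hd
      by_cases hclose : p N = p 0
      · exact ⟨p, h0, hp, hd, hclose⟩
      · obtain ⟨k, hk, hkp⟩ : ∃ k ∈ S.K, p N = k • p 0 := by
          obtain ⟨k, hk, h1⟩ := hp N
          obtain ⟨l, hl, h2⟩ := hx
          exact ⟨k * l, mul_mem hk hl, by rw [h1, h2, h0, mul_smul]⟩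
        obtain ⟨v, hv, hv0, hvN, hlt⟩ := RotSys.greendlinger hL hk
          (by rw [← hkp]; exact hclose)
        rw [← hkp] at hvN hlt
        have hθ := S.θ_nonneg
        have hlv := hL v hv
        obtain ⟨m, hm⟩ := RotSys.exists_mul_add_le (S.D v (p 0) (p N)) (S.h v) (by omega)
        set ρ := (S.a v) ^ ((2 * S.h v + 1) * m) with hρ
        have hρK : ρ ∈ S.K := Subgroup.subset_closure ⟨v, hv, m, rfl⟩
        have hρv : ρ • v = v := S.a_zpow_fix hv _
        -- the place of the cut
        obtain ⟨i, hi, hcut⟩ : ∃ i < N, M.d (p i) (ρ • p (i + 1)) ≤ M.d (p i) (p (i + 1)) := by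
          by_cases hex : ∃ i ≤ N, p i = v
          · obtain ⟨i, hi, hiv⟩ := hex
            have hiN : i ≠ N := by rintro rfl; exact hvN hiv.symm
            refine ⟨i, by omega, ?_⟩
            have h1 : M.d (p i) (ρ • p (i + 1)) = M.d (ρ • p i) (ρ • p (i + 1)) := by
              rw [hiv, hρv]
            rw [h1, M.d_smul]
          · push Not at hex
            by_contra hcon
            push Not at hcon
            have h1 : ∀ i < N, |S.D v (p i) (p (i + 1))| ≤ S.θ := by
              intro i hi
              by_contra h2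
              push Not at h2
              have h3 := M.bgi hv (hex i (by omega)).symm (hex (i + 1) (by omega)).symm h2
              have h4 := hcon i hi
              have h5 := M.d_tri (p i) v (ρ • p (i + 1))
              have h6 : M.d v (ρ • p (i + 1)) = M.d v (p (i + 1)) := by
                have := M.d_smul ρ v (p (i + 1))
                rwa [hρv] at this
              omega
            have h2 : ∀ j ≤ N, |S.D v (p 0) (p j)| ≤ j * S.θ := by
              intro j
              induction j with
              | zero => intro _; rw [S.D_self]; simp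
              | succ j ihj =>
                intro hj
                have h3 := ihj (by omega)
                have h4 := h1 j (by omega)
                have h5 := abs_add_le (S.D v (p 0) (p j)) (S.D v (p j) (p (j + 1)))
                rw [S.D_add] at h5
                push_cast
                linarith
            have h3 := h2 N le_rfl
            have h4 := hN v hv
            omega
        refine ih _ ?_ (fun j => if j ≤ i then p j else ρ • p j) rfl ?_ ?_ ?_
        · simp only [Nat.zero_le, if_true]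
          rw [if_neg (by omega)]
          have h1 : S.Red (p 0) (p N) (ρ • p N) :=
            ⟨v, hv, hv0, hvN, hlt, by rw [hρ, S.D_zpow hv hvN.symm]; exact hm, m, rfl⟩
          have h2 := RotSys.red_lt hL h1
          have h3 := S.cx_nonneg (p 0) (ρ • p N)
          omega
        · simpa using h0
        · intro j
          obtain ⟨k, hk, h1⟩ := hp j
          by_cases hj : j ≤ i
          · exact ⟨k, hk, by simp only [hj, if_true]; exact h1⟩
          · exact ⟨ρ * k, mul_mem hρK hk, by simp only [hj, if_false]; rw [h1, mul_smul]⟩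
        · intro j hj
          rcases lt_trichotomy j i with h | h | h
          · simp only [show j ≤ i by omega, show j + 1 ≤ i by omega, if_true]
            exact hd j hj
          · subst h
            simp only [le_refl, if_true, show ¬ (j + 1 ≤ j) by omega, if_false]
            apply le_antisymm
            · rw [← hd j hj]; exact hcut
            · obtain ⟨k, hk, h1⟩ := hp j
              obtain ⟨l, hl, h2⟩ := hp (j + 1)
              rw [h1, h2, ← M.dK_smul_left hk]
              rw [← mul_smul]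
              have := M.dK_le_d (k • x j) ((ρ * l) • x (j + 1))
              rwa [M.dK_smul_right (mul_mem hρK hl)] at this
          · simp only [show ¬ (j ≤ i) by omega, show ¬ (j + 1 ≤ i) by omega, if_false]
            rw [M.d_smul]
            exact hd j hj
  -- initial lift
  choose k hk hkd using fun i => M.exists_dK (x i) (x (i + 1))
  let g : ℕ → G := fun i => Nat.rec 1 (fun i gi => gi * k i) i
  have hg : ∀ i, g i ∈ S.K := by
    intro i
    induction i with
    | zero => exact one_mem _
    | succ i ih => exact mul_mem ih (hk i)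
  refine key _ (fun i => g i • x i) rfl (one_smul _ _) (fun i => ⟨g i, hg i, rfl⟩) ?_
  intro i _
  change M.d (g i • x i) ((g i * k i) • x (i + 1)) = _
  rw [mul_smul, M.d_smul, hkd]

/-- the four point inequality passes to the quotient with the same constant -/
theorem four_point (hL : S.Large) (δ : ℕ)
    (h4 : ∀ x y z w : P, M.d x z + M.d y w ≤
      max (M.d x y + M.d z w) (M.d x w + M.d y z) + δ) (x y z w : P) :
    M.dK x z + M.dK y w ≤ max (M.dK x y + M.dK z w) (M.dK x w + M.dK y z) + δ := by
  obtain ⟨p, h0, hp, hd, hc⟩ := M.polygon hL 4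
    (fun v hv => by have := hL v hv; have := S.θ_nonneg; push_cast; omega)
    (fun i => if i = 0 then x else if i = 1 then y else if i = 2 then z else
      if i = 3 then w else x) ⟨1, one_mem _, by simp⟩
  have e0 := hd 0 (by norm_num)
  have e1 := hd 1 (by norm_num)
  have e2 := hd 2 (by norm_num)
  have e3 := hd 3 (by norm_num)
  obtain ⟨k0, hk0, f0⟩ := hp 0
  obtain ⟨k1, hk1, f1⟩ := hp 1
  obtain ⟨k2, hk2, f2⟩ := hp 2
  obtain ⟨k3, hk3, f3⟩ := hp 3
  norm_num at e0 e1 e2 e3 f0 f1 f2 f3 hc
  have a1 : M.dK x z ≤ M.d (p 0) (p 2) := by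
    have := M.dK_le_d (p 0) (p 2)
    rwa [f0, f2, M.dK_smul_left hk0, M.dK_smul_right hk2, ← f0, ← f2] at this
  have a2 : M.dK y w ≤ M.d (p 1) (p 3) := by
    have := M.dK_le_d (p 1) (p 3)
    rwa [f1, f3, M.dK_smul_left hk1, M.dK_smul_right hk3, ← f1, ← f3] at this
  have a3 := h4 (p 0) (p 1) (p 2) (p 3)
  rw [hc] at e3
  rw [M.d_symm (p 0) (p 3), e0, e1, e2, e3, M.dK_symm w x] at a3
  omega

end MetSys

end Pool.Agent.Helper88.Burn
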