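import Mathlib

/-!
MP_70ec2f_al (graded Burnside), combinatorial part: rotation systems with exact integer angles.
Peak reduction: every orbit of the group generated by the `n`-th powers of the rotations contains
exactly one reduced point (Greendlinger lemma).
-/

set_option autoImplicit false

namespace Pool.Agent.Helper88.Burn

/-- A rotation system: `C` is the set of centres, `c v z` the angular coordinate of the point `z`
around the centre `v`, `a v` the rotation by one around `v`. -/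
structure RotSys (G P : Type*) [Group G] [MulAction G P] where
  C : Set P
  smul_mem : ∀ (g : G) {v : P}, v ∈ C → g • v ∈ C
  c : P → P → ℤ
  a : P → G
  h : P → ℤ
  θ : ℤ
  θ_nonneg : 0 ≤ θ
  h_smul : ∀ (g : G) {v : P}, v ∈ C → h (g • v) = h v
  a_smul : ∀ (g : G) {v : P}, v ∈ C → a (g • v) = g * a v * g⁻¹
  a_fix : ∀ {v : P}, v ∈ C → a v • v = v
  c_smul : ∀ (g : G) {v x y : P}, v ∈ C → x ≠ v → y ≠ v →
    c (g • v) (g • y) - c (g • v) (g • x) = c v y - c v x
  c_rot : ∀ {v y : P}, v ∈ C → y ≠ v → c v (a v • y) = c v y + 1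
  strong : ∀ {v w z : P}, v ∈ C → w ∈ C → v ≠ w → z ≠ v → z ≠ w → θ < |c v z - c v w| →
    c w z - c w v = 0
  fin : ∀ y z : P, {v | v ∈ C ∧ v ≠ y ∧ v ≠ z ∧ θ < |c v z - c v y|}.Finite

namespace RotSys

variable {G P : Type*} [Group G] [MulAction G P] (S : RotSys G P)

/-- signed angle at `v` from `x` to `y` -/
def D (v x y : P) : ℤ := S.c v y - S.c v x

lemma D_add (v x y z : P) : S.D v x y + S.D v y z = S.D v x z := by
  unfold D; ring

lemma D_self (v x : P) : S.D v x x = 0 := by unfold D; ring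

lemma D_symm (v x y : P) : S.D v y x = - S.D v x y := by unfold D; ring

lemma abs_D_symm (v x y : P) : |S.D v y x| = |S.D v x y| := by rw [D_symm, abs_neg]

lemma D_smul (g : G) {v x y : P} (hv : v ∈ S.C) (hx : x ≠ v) (hy : y ≠ v) :
    S.D (g • v) (g • x) (g • y) = S.D v x y := S.c_smul g hv hx hy

lemma strong' {v w z : P} (hv : v ∈ S.C) (hw : w ∈ S.C) (hvw : v ≠ w) (hzv : z ≠ v)
    (hzw : z ≠ w) (h : S.θ < |S.D v w z|) : S.D w v z = 0 := S.strong hv hw hvw hzv hzw h

lemma strong'' {v w z : P} (hv : v ∈ S.C) (hw : w ∈ S.C) (hvw : v ≠ w) (hzv : z ≠ v)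
    (hzw : z ≠ w) (h : S.θ < |S.D v z w|) : S.D w z v = 0 := by
  rw [D_symm, S.strong' hv hw hvw hzv hzw (by rwa [abs_D_symm]), neg_zero]

lemma a_zpow_fix {v : P} (hv : v ∈ S.C) (m : ℤ) : (S.a v) ^ m • v = v := by
  have h1 : ∀ k : ℕ, (S.a v) ^ k • v = v := by
    intro k
    induction k with
    | zero => simp
    | succ k ih => rw [pow_succ, mul_smul, S.a_fix hv, ih]
  obtain ⟨k, rfl | rfl⟩ := m.eq_nat_or_neg
  · simpa using h1 k
  · rw [zpow_neg, zpow_natCast, inv_smul_eq_iff]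
    exact (h1 k).symm

lemma zpow_smul_ne {v y : P} (hv : v ∈ S.C) (hy : y ≠ v) (m : ℤ) : (S.a v) ^ m • y ≠ v := by
  intro h
  apply hy
  exact MulAction.injective _ (h.trans (S.a_zpow_fix hv m).symm)

lemma c_zpow {v y : P} (hv : v ∈ S.C) (hy : y ≠ v) (m : ℤ) :
    S.c v ((S.a v) ^ m • y) = S.c v y + m := by
  have h1 : ∀ k : ℕ, ∀ y, y ≠ v → S.c v ((S.a v) ^ (k : ℤ) • y) = S.c v y + k := by
    intro k
    induction k with
    | zero => intro y _; simp
    | succ k ih =>
      intro y hy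
      have h3 := S.zpow_smul_ne hv hy 1
      rw [zpow_one] at h3
      have h4 : (S.a v) ^ ((k + 1 : ℕ) : ℤ) • y = (S.a v) ^ (k : ℤ) • (S.a v • y) := by
        rw [← mul_smul, zpow_natCast, zpow_natCast, pow_succ]
      rw [h4, ih _ h3, S.c_rot hv hy]
      push_cast; ring
  obtain ⟨k, rfl | rfl⟩ := m.eq_nat_or_neg
  · exact h1 k y hy
  · have h2 := h1 k ((S.a v) ^ (-(k : ℤ)) • y) (S.zpow_smul_ne hv hy _)
    rw [← mul_smul, ← zpow_add, add_neg_cancel, zpow_zero, one_smul] at h2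
    rw [h2]; ring

lemma D_zpow {v x y : P} (hv : v ∈ S.C) (hy : y ≠ v) (m : ℤ) :
    S.D v x ((S.a v) ^ m • y) = S.D v x y + m := by
  unfold D; rw [S.c_zpow hv hy]; ring

/-- the order of the centres between `y` and `u` -/
lemma comparable {y u v w : P} (hv : v ∈ S.C) (hw : w ∈ S.C) (hvw : v ≠ w)
    (hvy : v ≠ y) (hvu : v ≠ u) (hwy : w ≠ y) (hwu : w ≠ u)
    (h1 : 2 * S.θ < |S.D v y u|) (h2 : 2 * S.θ < |S.D w y u|) :
    (S.D w y v = 0 ∧ S.D v w u = 0) ∨ (S.D v y w = 0 ∧ S.D w v u = 0) := by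
  have hθ := S.θ_nonneg
  by_cases h : S.θ < |S.D v y w|
  · left
    have h3 : S.D w y v = 0 := S.strong'' hv hw hvw hvy.symm hwy.symm h
    refine ⟨h3, ?_⟩
    have h4 : S.D w v u = S.D w y u := by
      have := S.D_add w y v u; omega
    exact S.strong' hw hv hvw.symm hwu.symm hvu.symm (by rw [h4]; omega)
  · right
    have h4 : S.θ < |S.D v w u| := by
      have := S.D_add v y w u
      have h5 := abs_add_le (S.D v y w) (S.D v w u)
      rw [this] at h5
      omega
    have h5 : S.D w v u = 0 := S.strong' hv hw hvw hvu.symm hwu.symm h4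
    refine ⟨?_, h5⟩
    have h6 : S.D w y v = S.D w y u := by
      have := S.D_add w y v u; omega
    exact S.strong'' hw hv hvw.symm hwy.symm hvy.symm (by rw [h6]; omega)

open Classical in
/-- contribution of the centre `w` to the complexity of the pair `y`, `z` -/
noncomputable def f (y z w : P) : ℤ :=
  if w ∈ S.C ∧ w ≠ y ∧ w ≠ z then max (|S.D w y z| - 2 * S.θ) 0 else 0

lemma f_nonneg (y z w : P) : 0 ≤ S.f y z w := by
  unfold f; split_ifs
  · exact le_max_right _ _
  · exact le_rfl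

lemma f_eq {y z w : P} (hw : w ∈ S.C) (hy : w ≠ y) (hz : w ≠ z) :
    S.f y z w = max (|S.D w y z| - 2 * S.θ) 0 := by
  unfold f; rw [if_pos ⟨hw, hy, hz⟩]

lemma f_pos {y z w : P} (h : S.f y z w ≠ 0) :
    w ∈ S.C ∧ w ≠ y ∧ w ≠ z ∧ 2 * S.θ < |S.D w y z| := by
  unfold f at h
  split_ifs at h with h1
  · refine ⟨h1.1, h1.2.1, h1.2.2, ?_⟩
    by_contra h2
    apply h
    rw [max_eq_right]; omega
  · exact absurd rfl h

lemma f_symm (y z w : P) : S.f z y w = S.f y z w := by
  unfold f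
  by_cases h : w ∈ S.C ∧ w ≠ y ∧ w ≠ z
  · rw [if_pos h, if_pos ⟨h.1, h.2.2, h.2.1⟩, abs_D_symm]
  · rw [if_neg h, if_neg fun h' => h ⟨h'.1, h'.2.2, h'.2.1⟩]

lemma f_smul (g : G) (y z w : P) : S.f (g • y) (g • z) (g • w) = S.f y z w := by
  unfold f
  have h1 : (g • w ∈ S.C ∧ g • w ≠ g • y ∧ g • w ≠ g • z) ↔ (w ∈ S.C ∧ w ≠ y ∧ w ≠ z) := by
    refine and_congr ⟨fun h => ?_, fun h => S.smul_mem g h⟩ (and_congr ?_ ?_)
    · have := S.smul_mem g⁻¹ h
      rwa [inv_smul_smul] at this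
    · exact not_congr (MulAction.injective g).eq_iff
    · exact not_congr (MulAction.injective g).eq_iff
  by_cases h : w ∈ S.C ∧ w ≠ y ∧ w ≠ z
  · rw [if_pos h, if_pos (h1.2 h), S.D_smul g h.1 h.2.1.symm h.2.2.symm]
  · rw [if_neg h, if_neg fun h' => h (h1.1 h')]

lemma f_finite (y z : P) : (Function.support (S.f y z)).Finite := by
  refine (S.fin y z).subset ?_
  intro w hw
  obtain ⟨h1, h2, h3, h4⟩ := S.f_pos hw
  refine ⟨h1, h2, h3, ?_⟩
  have := S.θ_nonneg
  unfold D at h4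
  omega

/-- the complexity of the pair `y`, `z` -/
noncomputable def cx (y z : P) : ℤ := ∑ᶠ w, S.f y z w

lemma cx_nonneg (y z : P) : 0 ≤ S.cx y z := finsum_nonneg fun w => S.f_nonneg y z w

lemma cx_symm (y z : P) : S.cx z y = S.cx y z := by
  unfold cx; exact finsum_congr fun w => S.f_symm y z w

lemma cx_smul (g : G) (y z : P) : S.cx (g • y) (g • z) = S.cx y z := by
  unfold cx
  rw [← finsum_comp_equiv (MulAction.toPerm g)]
  exact finsum_congr fun w => S.f_smul g y z w

lemma cx_eq_sum {y z : P} {T : Finset P} (hT : Function.support (S.f y z) ⊆ T) :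
    S.cx y z = ∑ w ∈ T, S.f y z w := finsum_eq_sum_of_support_subset _ hT

lemma cx_self (y : P) : S.cx y y = 0 := by
  unfold cx
  apply finsum_eq_zero_of_forall_eq_zero
  intro w
  by_contra h
  obtain ⟨_, _, _, h4⟩ := S.f_pos h
  rw [D_self, abs_zero] at h4
  have := S.θ_nonneg
  omega

/-- lower bound for the complexity -/
lemma cx_lower {y u v : P} (hv : v ∈ S.C) (hvy : v ≠ y) (hvu : v ≠ u)
    (h1 : 2 * S.θ < |S.D v y u|) :
    S.cx y v + S.cx v u + (|S.D v y u| - 2 * S.θ) ≤ S.cx y u := by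
  classical
  have hθ := S.θ_nonneg
  set T : Finset P := insert v ((S.f_finite y v).toFinset ∪ ((S.f_finite v u).toFinset ∪
    (S.f_finite y u).toFinset)) with hT
  have e1 : S.cx y v = ∑ w ∈ T, S.f y v w := S.cx_eq_sum (by intro w hw; simp [hT]; tauto)
  have e2 : S.cx v u = ∑ w ∈ T, S.f v u w := S.cx_eq_sum (by intro w hw; simp [hT]; tauto)
  have e3 : S.cx y u = ∑ w ∈ T, S.f y u w := S.cx_eq_sum (by intro w hw; simp [hT]; tauto)
  have e4 : (|S.D v y u| - 2 * S.θ) = ∑ w ∈ T, if w = v then (|S.D v y u| - 2 * S.θ) else 0 := by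
    rw [Finset.sum_ite_eq' T v, if_pos (by simp [hT])]
  rw [e1, e2, e3, e4, ← Finset.sum_add_distrib, ← Finset.sum_add_distrib]
  refine Finset.sum_le_sum fun w _ => ?_
  by_cases hwv : w = v
  · subst hwv
    rw [if_pos rfl, S.f_eq hv hvy hvu]
    have h2 : S.f y w w = 0 := by unfold f; rw [if_neg (by tauto)]
    have h3 : S.f w u w = 0 := by unfold f; rw [if_neg (by tauto)]
    rw [h2, h3]
    have := le_max_left (|S.D w y u| - 2 * S.θ) 0
    omega
  · rw [if_neg hwv, add_zero]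
    by_cases h2 : S.f y v w = 0
    · by_cases h3 : S.f v u w = 0
      · rw [h2, h3, add_zero]; exact S.f_nonneg _ _ _
      · rw [h2, zero_add]
        obtain ⟨k1, k2, k3, k4⟩ := S.f_pos h3
        have k5 : S.D v u w = 0 := S.strong'' k1 hv k2 k3.symm hvu.symm (by
          rw [abs_D_symm]; omega)
        have k6 : w ≠ y := by
          rintro rfl
          rw [D_symm] at k5
          have : S.D v w u = 0 := by omega
          rw [this, abs_zero] at h1; omega
        have k7 : S.D v y w = S.D v y u := by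
          have := S.D_add v y u w; omega
        have k8 : S.D w y v = 0 := S.strong'' hv k1 (Ne.symm hwv) hvy.symm k6.symm (by
          rw [k7]; omega)
        have k9 : S.D w y u = S.D w v u := by
          have := S.D_add w y v u; omega
        rw [S.f_eq k1 k2 k3, S.f_eq k1 k6 k3, k9]
    · obtain ⟨k1, k2, k3, k4⟩ := S.f_pos h2
      have k5 : S.D v y w = 0 := S.strong'' k1 hv k3 k2.symm hvy.symm (by
        omega)
      have k6 : w ≠ u := by
        rintro rfl
        rw [k5, abs_zero] at h1; omega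
      have k7 : S.D v w u = S.D v y u := by
        have := S.D_add v y w u; omega
      have k8 : S.D w v u = 0 := S.strong' hv k1 (Ne.symm hwv) hvu.symm k6.symm (by
        rw [k7]; omega)
      have k9 : S.D w y u = S.D w y v := by
        have := S.D_add w y v u; omega
      have k10 : S.f v u w = 0 := by
        rw [S.f_eq k1 k3 k6, k8, abs_zero, max_eq_right]; omega
      rw [k10, add_zero, S.f_eq k1 k2 k3, S.f_eq k1 k2 k6, k9]

/-- upper bound for the complexity when the angle is large -/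
lemma cx_upper {y u v : P} (hv : v ∈ S.C) (hvy : v ≠ y) (hvu : v ≠ u)
    (h1 : 2 * S.θ < |S.D v y u|) :
    S.cx y u ≤ S.cx y v + S.cx v u + (|S.D v y u| - 2 * S.θ) := by
  classical
  have hθ := S.θ_nonneg
  set T : Finset P := insert v ((S.f_finite y v).toFinset ∪ ((S.f_finite v u).toFinset ∪
    (S.f_finite y u).toFinset)) with hT
  have e1 : S.cx y v = ∑ w ∈ T, S.f y v w := S.cx_eq_sum (by intro w hw; simp [hT]; tauto)
  have e2 : S.cx v u = ∑ w ∈ T, S.f v u w := S.cx_eq_sum (by intro w hw; simp [hT]; tauto)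
  have e3 : S.cx y u = ∑ w ∈ T, S.f y u w := S.cx_eq_sum (by intro w hw; simp [hT]; tauto)
  have e4 : (|S.D v y u| - 2 * S.θ) = ∑ w ∈ T, if w = v then (|S.D v y u| - 2 * S.θ) else 0 := by
    rw [Finset.sum_ite_eq' T v, if_pos (by simp [hT])]
  rw [e1, e2, e3, e4, ← Finset.sum_add_distrib, ← Finset.sum_add_distrib]
  refine Finset.sum_le_sum fun w _ => ?_
  have n1 := S.f_nonneg y v w
  have n2 := S.f_nonneg v u w
  by_cases hwv : w = v
  · subst hwv
    rw [if_pos rfl, S.f_eq hv hvy hvu, max_eq_left (by omega)]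
    omega
  · rw [if_neg hwv, add_zero]
    by_cases h2 : S.f y u w = 0
    · rw [h2]; omega
    · obtain ⟨k1, k2, k3, k4⟩ := S.f_pos h2
      rcases S.comparable hv k1 (Ne.symm hwv) hvy hvu k2 k3 h1 k4 with ⟨k5, k6⟩ | ⟨k5, k6⟩
      · have k7 : S.D w y u = S.D w v u := by
          have := S.D_add w y v u; omega
        have : S.f y u w = S.f v u w := by
          rw [S.f_eq k1 hwv k3, S.f_eq k1 k2 k3, k7]
        omega
      · have k7 : S.D w y u = S.D w y v := by
          have := S.D_add w y v u; omega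
        have : S.f y u w = S.f y v w := by
          rw [S.f_eq k1 k2 hwv, S.f_eq k1 k2 k3, k7]
        omega

/-- general triangle inequality for the complexity -/
lemma cx_tri {y u v : P} (hv : v ∈ S.C) (hvy : v ≠ y) (hvu : v ≠ u) :
    S.cx y u ≤ S.cx y v + S.cx v u + max (|S.D v y u| - 2 * S.θ) 0 + 4 * S.θ := by
  classical
  have hθ := S.θ_nonneg
  set T : Finset P := insert v ((S.f_finite y v).toFinset ∪ ((S.f_finite v u).toFinset ∪
    (S.f_finite y u).toFinset)) with hT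
  have e1 : S.cx y v = ∑ w ∈ T, S.f y v w := S.cx_eq_sum (by intro w hw; simp [hT]; tauto)
  have e2 : S.cx v u = ∑ w ∈ T, S.f v u w := S.cx_eq_sum (by intro w hw; simp [hT]; tauto)
  have e3 : S.cx y u = ∑ w ∈ T, S.f y u w := S.cx_eq_sum (by intro w hw; simp [hT]; tauto)
  have e4 : max (|S.D v y u| - 2 * S.θ) 0 =
      ∑ w ∈ T, if w = v then max (|S.D v y u| - 2 * S.θ) 0 else 0 := by
    rw [Finset.sum_ite_eq' T v, if_pos (by simp [hT])]
  set B : Finset P := T.filter fun w => w ≠ v ∧ S.f y u w ≠ 0 ∧ S.D w y v ≠ 0 ∧ S.D w v u ≠ 0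
    with hB
  have hBc : B.card ≤ 2 := by
    by_contra hcon
    push Not at hcon
    obtain ⟨w1, h1, w2, h2, w3, h3, d12, d13, d23⟩ := Finset.two_lt_card.1 hcon
    have key : ∀ w ∈ B, ∀ w' ∈ B, w ≠ w' →
        (|S.D w' y v| ≤ S.θ ∧ |S.D w v u| ≤ S.θ) ∨ (|S.D w y v| ≤ S.θ ∧ |S.D w' v u| ≤ S.θ) := by
      have key1 : ∀ w ∈ B, ∀ w' ∈ B, w ≠ w' → S.D w' y w = 0 → S.D w w' u = 0 →
          (|S.D w' y v| ≤ S.θ ∧ |S.D w v u| ≤ S.θ) := by
        intro w hw w' hw' hne k1 k2
        obtain ⟨-, a1, a2, a3, a4⟩ := Finset.mem_filter.1 hw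
        obtain ⟨-, b1, b2, b3, b4⟩ := Finset.mem_filter.1 hw'
        obtain ⟨a5, a6, a7, a8⟩ := S.f_pos a2
        obtain ⟨b5, b6, b7, b8⟩ := S.f_pos b2
        constructor
        · have c1 : S.D w' y v = S.D w' w v := by
            have := S.D_add w' y w v; omega
          rw [c1]
          by_contra c2
          push Not at c2
          have c3 : S.D w w' v = 0 := S.strong' b5 a5 hne.symm b1.symm a1.symm c2
          have c4 : S.D w v u = 0 := by
            have := S.D_add w w' v u; omega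
          exact a4 c4
        · have c1 : S.D w v u = S.D w v w' := by
            have := S.D_add w v w' u; omega
          rw [c1]
          by_contra c2
          push Not at c2
          have c3 : S.D w' v w = 0 := S.strong'' a5 b5 hne a1.symm b1.symm c2
          have c4 : S.D w' y v = 0 := by
            have c5 := S.D_add w' y w v
            have c6 := S.D_symm w' w v
            omega
          exact b3 c4
      intro w hw w' hw' hne
      obtain ⟨-, a1, a2, a3, a4⟩ := Finset.mem_filter.1 hw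
      obtain ⟨-, b1, b2, b3, b4⟩ := Finset.mem_filter.1 hw'
      obtain ⟨a5, a6, a7, a8⟩ := S.f_pos a2
      obtain ⟨b5, b6, b7, b8⟩ := S.f_pos b2
      rcases S.comparable a5 b5 hne a6 a7 b6 b7 a8 b8 with ⟨k5, k6⟩ | ⟨k5, k6⟩
      · exact Or.inl (key1 w hw w' hw' hne k5 k6)
      · exact Or.inr (key1 w' hw' w hw hne.symm k5 k6)
    have key2 : ∀ w ∈ B, ¬ (|S.D w y v| ≤ S.θ ∧ |S.D w v u| ≤ S.θ) := by
      rintro w hw ⟨k1, k2⟩
      obtain ⟨-, a1, a2, a3, a4⟩ := Finset.mem_filter.1 hw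
      obtain ⟨a5, a6, a7, a8⟩ := S.f_pos a2
      have := abs_add_le (S.D w y v) (S.D w v u)
      rw [S.D_add] at this
      omega
    have m1 := key2 w1 h1
    have m2 := key2 w2 h2
    have m3 := key2 w3 h3
    have l1 := key w1 h1 w2 h2 d12
    have l2 := key w1 h1 w3 h3 d13
    have l3 := key w2 h2 w3 h3 d23
    tauto
  have e5 : ∑ w ∈ T, (if w ∈ B then 2 * S.θ else 0) ≤ 4 * S.θ := by
    rw [Finset.sum_ite, Finset.sum_const_zero, add_zero, Finset.sum_const, nsmul_eq_mul]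
    have h1 : (T.filter fun w => w ∈ B) = B := by
      ext w; simp [hB]
    rw [h1]
    have h2 : (B.card : ℤ) ≤ 2 := by exact_mod_cast hBc
    nlinarith
  refine le_trans ?_ (add_le_add_right e5 _)
  rw [e1, e2, e3, e4, ← Finset.sum_add_distrib, ← Finset.sum_add_distrib,
    ← Finset.sum_add_distrib]
  refine Finset.sum_le_sum fun w hwT => ?_
  have n1 := S.f_nonneg y v w
  have n2 := S.f_nonneg v u w
  have n3 : 0 ≤ (if w ∈ B then 2 * S.θ else 0) := by split_ifs <;> omega
  by_cases hwv : w = v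
  · subst hwv
    rw [if_pos rfl, S.f_eq hv hvy hvu]
    omega
  · rw [if_neg hwv, add_zero]
    by_cases h2 : S.f y u w = 0
    · rw [h2]; omega
    · obtain ⟨k1, k2, k3, k4⟩ := S.f_pos h2
      have f1 := S.f_eq k1 k2 hwv
      have f2 := S.f_eq k1 hwv k3
      have f3 := S.f_eq k1 k2 k3
      have f4 := S.D_add w y v u
      by_cases k5 : S.D w y v = 0
      · have k7 : S.D w y u = S.D w v u := by omega
        rw [k7] at f3
        omega
      · by_cases k6 : S.D w v u = 0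
        · have k7 : S.D w y u = S.D w y v := by omega
          rw [k7] at f3
          omega
        · have k7 : w ∈ B := Finset.mem_filter.2 ⟨hwT, hwv, h2, k5, k6⟩
          rw [if_pos k7, f1, f2, f3]
          have k8 := abs_add_le (S.D w y v) (S.D w v u)
          rw [f4] at k8
          rw [max_eq_left (by omega)]
          have m1 := le_max_left (|S.D w y v| - 2 * S.θ) 0
          have m2 := le_max_left (|S.D w v u| - 2 * S.θ) 0
          omega

/-- the exponents `2 h v + 1` are large -/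
def Large : Prop := ∀ v ∈ S.C, 12 * S.θ + 1 ≤ S.h v

/-- `z'` is obtained from `z` by a power of an `n`-th power of a rotation -/
def Rot (z z' : P) : Prop := ∃ v ∈ S.C, ∃ m : ℤ, z' = (S.a v) ^ ((2 * S.h v + 1) * m) • z

/-- one step of reduction of `z` relative to `y` -/
def Red (y z z' : P) : Prop :=
  ∃ v ∈ S.C, v ≠ y ∧ v ≠ z ∧ S.h v < |S.D v y z| ∧ |S.D v y z'| ≤ S.h v ∧
    ∃ m : ℤ, z' = (S.a v) ^ ((2 * S.h v + 1) * m) • z

/-- `z` is reduced relative to `y` -/
def IsRed (y z : P) : Prop := ∀ v ∈ S.C, v ≠ y → v ≠ z → |S.D v y z| ≤ S.h v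

/-- `z` and `z'` differ by a power of the `n`-th power of the rotation around `y` -/
def Sim (y z z' : P) : Prop :=
  z' = z ∨ (y ∈ S.C ∧ ∃ m : ℤ, z' = (S.a y) ^ ((2 * S.h y + 1) * m) • z)

lemma exists_mul_add_le (d h : ℤ) (hh : 0 ≤ h) : ∃ m : ℤ, |d + (2 * h + 1) * m| ≤ h := by
  refine ⟨- ((d + h) / (2 * h + 1)), ?_⟩
  have h1 := Int.emod_add_mul_ediv (d + h) (2 * h + 1)
  have h2 := Int.emod_nonneg (d + h) (show (2 * h + 1) ≠ 0 by omega)
  have h3 := Int.emod_lt_of_pos (d + h) (show 0 < (2 * h + 1) by omega)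
  rw [abs_le]
  constructor
  · have : d + (2 * h + 1) * -((d + h) / (2 * h + 1)) = (d + h) % (2 * h + 1) - h := by linarith
    rw [this]; omega
  · have : d + (2 * h + 1) * -((d + h) / (2 * h + 1)) = (d + h) % (2 * h + 1) - h := by linarith
    rw [this]; omega

lemma uniq_mul_add_le {d h m m' : ℤ} (h1 : |d + (2 * h + 1) * m| ≤ h)
    (h2 : |d + (2 * h + 1) * m'| ≤ h) : m = m' := by
  by_contra hne
  have h0 : 0 ≤ h := (abs_nonneg _).trans h1
  rw [abs_le] at h1 h2
  rcases lt_or_gt_of_ne hne with h3 | h3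
  · have : (2 * h + 1) * (m' - m) ≥ (2 * h + 1) * 1 :=
      mul_le_mul_of_nonneg_left (by omega) (by omega)
    have e : (2 * h + 1) * (m' - m) = (2 * h + 1) * m' - (2 * h + 1) * m := by ring
    omega
  · have : (2 * h + 1) * (m - m') ≥ (2 * h + 1) * 1 :=
      mul_le_mul_of_nonneg_left (by omega) (by omega)
    have e : (2 * h + 1) * (m - m') = (2 * h + 1) * m - (2 * h + 1) * m' := by ring
    omega

lemma cx_zpow {v z : P} (hv : v ∈ S.C) (k : ℤ) : S.cx v ((S.a v) ^ k • z) = S.cx v z := by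
  have h := S.cx_smul ((S.a v) ^ k) v z
  rwa [S.a_zpow_fix hv] at h

variable {S}

/-- bound for the complexity of a point which is nearly reduced at `v` -/
lemma cx_bound {y u v : P} (hv : v ∈ S.C) (hvy : v ≠ y) (hvu : v ≠ u) {b : ℤ}
    (hb : |S.D v y u| ≤ b) (h6 : 6 * S.θ ≤ b) : S.cx y u ≤ S.cx y v + S.cx v u + (b - 2 * S.θ) := by
  have hθ := S.θ_nonneg
  by_cases h : 2 * S.θ < |S.D v y u|
  · have := S.cx_upper hv hvy hvu h
    omega
  · have := S.cx_tri hv hvy hvu
    rw [max_eq_right (by omega)] at this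
    omega

lemma red_lt (hL : S.Large) {y z z' : P} (h : S.Red y z z') : S.cx y z' < S.cx y z := by
  obtain ⟨v, hv, hvy, hvz, h1, h2, m, rfl⟩ := h
  have hθ := S.θ_nonneg
  have hl := hL v hv
  have hne := S.zpow_smul_ne hv hvz.symm ((2 * S.h v + 1) * m)
  have k1 := S.cx_lower hv hvy hvz (by omega)
  have k2 := cx_bound (S := S) hv hvy hne.symm h2 (by omega)
  rw [S.cx_zpow hv] at k2
  omega

lemma exists_red (hL : S.Large) {y z : P} (h : ¬ S.IsRed y z) : ∃ z', S.Red y z z' := by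
  unfold IsRed at h
  push Not at h
  obtain ⟨v, hv, hvy, hvz, h1⟩ := h
  have hθ := S.θ_nonneg
  have hl := hL v hv
  obtain ⟨m, hm⟩ := exists_mul_add_le (S.D v y z) (S.h v) (by omega)
  exact ⟨_, v, hv, hvy, hvz, h1, by rwa [S.D_zpow hv hvz.symm], m, rfl⟩

lemma peak (hL : S.Large) {y z v w : P} (hv : v ∈ S.C) (hw : w ∈ S.C) (hvw : v ≠ w)
    (hvy : v ≠ y) (hvz : v ≠ z) (hwy : w ≠ y) (hwz : w ≠ z) (h1 : S.h v < |S.D v y z|)
    (h2 : S.h w < |S.D w y z|) (h3 : S.D v w z = 0) (h4 : S.D w y v = 0) {m m' : ℤ}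
    (hm : |S.D v y ((S.a v) ^ m • z)| ≤ S.h v) (hm' : |S.D w y ((S.a w) ^ m' • z)| ≤ S.h w) :
    S.cx y ((S.a v) ^ m • (S.a w) ^ m' • z) < S.cx y z := by
  have hθ := S.θ_nonneg
  have hlv := hL v hv
  have hlw := hL w hw
  have L1 := S.cx_lower hv hvy hvz (by omega)
  have e1 : S.D w v z = S.D w y z := by
    have := S.D_add w y v z; omega
  have e1' : |S.D w v z| = |S.D w y z| := by rw [e1]
  have L2 := S.cx_lower hw hvw.symm hwz (by omega : 2 * S.θ < |S.D w v z|)
  have hu0 := S.cx_zpow (z := z) hw m'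
  have huw := S.zpow_smul_ne hw hwz.symm m'
  set u := (S.a w) ^ m' • z with hu
  have n1 := S.cx_nonneg v z
  have n2 := S.cx_nonneg v w
  have n3 := S.cx_nonneg w z
  have n4 := S.cx_symm v w
  by_cases huv : u = v
  · rw [huv, S.a_zpow_fix hv]
    omega
  · have e2 : S.D v y ((S.a v) ^ m • u) = S.D v y ((S.a v) ^ m • z) + S.D v w u := by
      rw [S.D_zpow hv huv, S.D_zpow hv hvz.symm]
      have k1 := S.D_add v y z u
      have k2 := S.D_add v w z u
      omega
    have hne := S.zpow_smul_ne hv huv m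
    have e3 : S.D w v u = S.D w y u := by
      have := S.D_add w y v u; omega
    have e4 := S.cx_zpow (z := u) hv m
    have a1 := abs_add_le (S.D v y ((S.a v) ^ m • z)) (S.D v w u)
    rw [← e2] at a1
    have U1 := S.cx_tri hv hvy hne.symm
    have U2 := S.cx_tri hw hvw.symm huw.symm
    rw [e3] at U2
    by_cases hA : 2 * S.θ < |S.D v w u|
    · have L3 := S.cx_lower hv hvw (Ne.symm huv) hA
      omega
    · by_cases hB : S.θ < |S.D w y u|
      · have e5 : S.D v w u = 0 := S.strong' hw hv hvw.symm huw huv (by rw [e3]; exact hB)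
        rw [e5, add_zero] at e2
        have U3 := cx_bound (S := S) hv hvy hne.symm (b := S.h v) (by rw [e2]; exact hm) (by omega)
        have U4 := cx_bound (S := S) hw hvw.symm huw.symm (b := S.h w) (by rw [e3]; exact hm')
          (by omega)
        omega
      · omega

lemma Rot.symm {z z' : P} (h : S.Rot z z') : S.Rot z' z := by
  obtain ⟨v, hv, m, rfl⟩ := h
  refine ⟨v, hv, -m, ?_⟩
  rw [← mul_smul, ← zpow_add]
  simp

lemma Sim.refl (y z : P) : S.Sim y z z := Or.inl rfl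

lemma Sim.symm {y z z' : P} (h : S.Sim y z z') : S.Sim y z' z := by
  rcases h with rfl | ⟨hy, m, rfl⟩
  · exact Or.inl rfl
  · refine Or.inr ⟨hy, -m, ?_⟩
    rw [← mul_smul, ← zpow_add]
    simp

lemma Sim.trans {y z z' z'' : P} (h : S.Sim y z z') (h' : S.Sim y z' z'') : S.Sim y z z'' := by
  rcases h with rfl | ⟨hy, m, rfl⟩
  · exact h'
  · rcases h' with rfl | ⟨_, m', rfl⟩
    · exact Or.inr ⟨hy, m, rfl⟩
    · refine Or.inr ⟨hy, m' + m, ?_⟩
      rw [← mul_smul, ← zpow_add, mul_add]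

lemma join (hL : S.Large) {y z z₁ z₂ : P} (h₁ : S.Red y z z₁) (h₂ : S.Red y z z₂) :
    z₁ = z₂ ∨ ∃ z'', S.cx y z'' < S.cx y z ∧ S.Rot z₁ z'' ∧ S.Rot z₂ z'' := by
  have key : ∀ {v w z₁ z₂ : P}, v ∈ S.C → w ∈ S.C → v ≠ w → v ≠ y → v ≠ z → w ≠ y → w ≠ z →
      S.h v < |S.D v y z| → S.h w < |S.D w y z| → S.D v w z = 0 → S.D w y v = 0 →
      |S.D v y z₁| ≤ S.h v → |S.D w y z₂| ≤ S.h w →
      (∃ m : ℤ, z₁ = (S.a v) ^ ((2 * S.h v + 1) * m) • z) →
      (∃ m : ℤ, z₂ = (S.a w) ^ ((2 * S.h w + 1) * m) • z) →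
      ∃ z'', S.cx y z'' < S.cx y z ∧ S.Rot z₁ z'' ∧ S.Rot z₂ z'' := by
    rintro v w z₁ z₂ hv hw hvw hvy hvz hwy hwz a1 a2 a3 a4 b1 b2 ⟨m, rfl⟩ ⟨m', rfl⟩
    refine ⟨_, peak hL hv hw hvw hvy hvz hwy hwz a1 a2 a3 a4 b1 b2, ?_, ?_⟩
    · refine ⟨(S.a v) ^ ((2 * S.h v + 1) * m) • w, S.smul_mem _ hw, m', ?_⟩
      rw [S.h_smul _ hw, S.a_smul _ hw, conj_zpow]
      simp only [mul_smul, inv_smul_smul]
    · exact ⟨v, hv, m, rfl⟩
  obtain ⟨v, hv, hvy, hvz, h1, h2, m, hm⟩ := h₁
  obtain ⟨w, hw, hwy, hwz, h3, h4, m', hm'⟩ := h₂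
  by_cases hvw : v = w
  · subst hvw
    left
    rw [hm, hm']
    rw [hm, S.D_zpow hv hvz.symm] at h2
    rw [hm', S.D_zpow hv hvz.symm] at h4
    rw [uniq_mul_add_le h2 h4]
  · right
    have hθ := S.θ_nonneg
    have hlv := hL v hv
    have hlw := hL w hw
    rcases S.comparable hv hw hvw hvy hvz hwy hwz (by omega) (by omega) with ⟨k5, k6⟩ | ⟨k5, k6⟩
    · exact key hv hw hvw hvy hvz hwy hwz h1 h3 k6 k5 h2 h4 ⟨m, hm⟩ ⟨m', hm'⟩
    · obtain ⟨z'', c1, c2, c3⟩ :=
        key hw hv (Ne.symm hvw) hwy hwz hvy hvz h3 h1 k6 k5 h4 h2 ⟨m', hm'⟩ ⟨m, hm⟩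
      exact ⟨z'', c1, c3, c2⟩

/-- `w` is a normal form of `z` -/
def NF (S : RotSys G P) (y z w : P) : Prop := Relation.ReflTransGen (S.Red y) z w ∧ S.IsRed y w

lemma exists_nf (hL : S.Large) (y z : P) : ∃ w, S.NF y z w := by
  generalize hN : (S.cx y z).toNat = N
  induction N using Nat.strong_induction_on generalizing z with
  | _ N ih =>
    by_cases h : S.IsRed y z
    · exact ⟨z, Relation.ReflTransGen.refl, h⟩
    · obtain ⟨z', hz'⟩ := exists_red hL h
      have h1 := red_lt hL hz'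
      have h2 := S.cx_nonneg y z'
      obtain ⟨w, hw1, hw2⟩ := ih (S.cx y z').toNat (by omega) z' rfl
      exact ⟨w, Relation.ReflTransGen.head hz' hw1, hw2⟩

lemma red_smul {y z z' : P} (h : S.Red y z z') {g : G} (hg : g • y = y) :
    S.Red y (g • z) (g • z') := by
  obtain ⟨v, hv, hvy, hvz, h1, h2, m, rfl⟩ := h
  have hne := S.zpow_smul_ne hv hvz.symm ((2 * S.h v + 1) * m)
  refine ⟨g • v, S.smul_mem g hv, ?_, ?_, ?_, ?_, m, ?_⟩
  · intro h; apply hvy; exact MulAction.injective g (h.trans hg.symm)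
  · intro h; exact hvz (MulAction.injective g h)
  · have := S.D_smul g hv hvy.symm hvz.symm
    rw [hg] at this
    rwa [S.h_smul g hv, this]
  · have := S.D_smul g hv hvy.symm hne
    rw [hg] at this
    rwa [S.h_smul g hv, this]
  · rw [S.h_smul _ hv, S.a_smul _ hv, conj_zpow]
    simp only [mul_smul, inv_smul_smul]

lemma isRed_smul {y z : P} (h : S.IsRed y z) {g : G} (hg : g • y = y) : S.IsRed y (g • z) := by
  intro v hv hvy hvz
  have h1 := S.smul_mem g⁻¹ hv
  have h2 : g⁻¹ • v ≠ y := by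
    intro h; apply hvy; rw [inv_smul_eq_iff] at h; rw [h, hg]
  have h3 : g⁻¹ • v ≠ z := by
    intro h; apply hvz; rw [inv_smul_eq_iff] at h; exact h
  have h4 := h _ h1 h2 h3
  rw [S.h_smul _ hv] at h4
  have h5 := S.D_smul g h1 h2.symm h3.symm
  rw [smul_inv_smul, hg] at h5
  rwa [h5]

lemma nf_smul {y z w : P} (h : S.NF y z w) {g : G} (hg : g • y = y) :
    S.NF y (g • z) (g • w) := by
  refine ⟨?_, isRed_smul h.2 hg⟩
  have h1 := h.1
  clear h
  induction h1 with
  | refl => exact Relation.ReflTransGen.refl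
  | tail _ h2 ih => exact ih.tail (red_smul h2 hg)

lemma nf_of_red {y z z' w : P} (h : S.Red y z z') (h' : S.NF y z' w) : S.NF y z w :=
  ⟨Relation.ReflTransGen.head h h'.1, h'.2⟩

lemma nf_of_isRed {y z w : P} (h : S.IsRed y z) (h' : S.NF y z w) : w = z := by
  rcases Relation.ReflTransGen.cases_head h'.1 with h1 | ⟨z', h1, -⟩
  · exact h1.symm
  · obtain ⟨v, hv, hvy, hvz, h2, -⟩ := h1
    have := h v hv hvy hvz
    omega

lemma nf_cases {y z w : P} (h' : S.NF y z w) :
    (S.IsRed y z ∧ w = z) ∨ ∃ z', S.Red y z z' ∧ S.NF y z' w := by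
  rcases Relation.ReflTransGen.cases_head h'.1 with h1 | ⟨z', h1, h2⟩
  · exact Or.inl ⟨h1 ▸ h'.2, h1.symm⟩
  · exact Or.inr ⟨z', h1, h2, h'.2⟩

/-- confluence -/
lemma nf_unique (hL : S.Large) (y : P) : ∀ (N : ℕ),
    (∀ z w w', (S.cx y z).toNat < N → S.NF y z w → S.NF y z w' → S.Sim y w w') ∧
    (∀ z z' w w', (S.cx y z).toNat < N → (S.cx y z').toNat < N → S.Rot z z' →
      S.NF y z w → S.NF y z' w' → S.Sim y w w') := by
  intro N
  induction N with
  | zero => exact ⟨fun _ _ _ h => absurd h (by omega), fun _ _ _ _ h => absurd h (by omega)⟩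
  | succ N ih =>
    obtain ⟨ihU, ihR⟩ := ih
    have hU : ∀ z w w', (S.cx y z).toNat < N + 1 → S.NF y z w → S.NF y z w' → S.Sim y w w' := by
      intro z w w' hz h1 h2
      rcases nf_cases h1 with ⟨h3, rfl⟩ | ⟨z₁, h3, h4⟩
      · rw [nf_of_isRed h3 h2]; exact Sim.refl _ _
      · rcases nf_cases h2 with ⟨h5, rfl⟩ | ⟨z₂, h5, h6⟩
        · obtain ⟨v, hv, hvy, hvz, h7, -⟩ := h3
          have := h5 v hv hvy hvz
          omega
        · have l1 := red_lt hL h3
          have l2 := red_lt hL h5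
          have p1 := S.cx_nonneg y z₁
          have p2 := S.cx_nonneg y z₂
          rcases join hL h3 h5 with rfl | ⟨z'', h7, h8, h9⟩
          · exact ihU z₁ w w' (by omega) h4 h6
          · have p3 := S.cx_nonneg y z''
            obtain ⟨w'', hw''⟩ := exists_nf hL y z''
            exact (ihR z₁ z'' w w'' (by omega) (by omega) h8 h4 hw'').trans
              (ihR z₂ z'' w' w'' (by omega) (by omega) h9 h6 hw'').symm
    refine ⟨hU, ?_⟩
    intro z z' w w' hz hz' hR h1 h2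
    have hR0 := hR
    obtain ⟨v, hv, m, rfl⟩ := hR
    by_cases hvy : v = y
    · subst hvy
      have h3 := nf_smul h1 (S.a_zpow_fix hv ((2 * S.h v + 1) * m))
      have h4 : S.Sim v w ((S.a v) ^ ((2 * S.h v + 1) * m) • w) := Or.inr ⟨hv, m, rfl⟩
      exact h4.trans (hU _ _ _ hz' h3 h2)
    · by_cases hvz : v = z
      · subst hvz
        rw [S.a_zpow_fix hv] at h2
        exact hU _ _ _ hz h1 h2
      · have hθ := S.θ_nonneg
        have hlv := hL v hv
        set k := (2 * S.h v + 1) * m with hk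
        have hne := S.zpow_smul_ne hv (Ne.symm hvz) k
        obtain ⟨m₀, hm₀⟩ := exists_mul_add_le (S.D v y z) (S.h v) (by omega)
        set z₀ := (S.a v) ^ ((2 * S.h v + 1) * m₀) • z with hz₀
        have hD0 : |S.D v y z₀| ≤ S.h v := by rw [hz₀, S.D_zpow hv (Ne.symm hvz)]; exact hm₀
        have hz₀' : z₀ = (S.a v) ^ ((2 * S.h v + 1) * (m₀ - m)) • ((S.a v) ^ k • z) := by
          rw [hz₀, ← mul_smul, ← zpow_add, hk]
          congr 2; ring
        obtain ⟨w₀, hw₀⟩ := exists_nf hL y z₀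
        have s1 : S.Sim y w w₀ := by
          by_cases h3 : |S.D v y z| ≤ S.h v
          · have : m₀ = 0 := uniq_mul_add_le hm₀ (by simpa using h3)
            have e : z₀ = z := by rw [hz₀, this]; simp
            rw [e] at hw₀
            exact hU _ _ _ hz h1 hw₀
          · exact hU _ _ _ hz h1 (nf_of_red ⟨v, hv, hvy, hvz, by omega, hD0, m₀, hz₀⟩ hw₀)
        have s2 : S.Sim y w' w₀ := by
          by_cases h3 : |S.D v y ((S.a v) ^ k • z)| ≤ S.h v
          · have h4 := h3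
            rw [S.D_zpow hv (Ne.symm hvz), hk] at h4
            have : m₀ = m := uniq_mul_add_le hm₀ h4
            have e : z₀ = (S.a v) ^ k • z := by rw [hz₀, this]
            rw [e] at hw₀
            exact hU _ _ _ hz' h2 hw₀
          · exact hU _ _ _ hz' h2
              (nf_of_red ⟨v, hv, hvy, hne.symm, by omega, hD0, m₀ - m, hz₀'⟩ hw₀)
        exact s1.trans s2.symm

/-- the group generated by the `n`-th powers of the rotations -/
def K (S : RotSys G P) : Subgroup G :=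
  Subgroup.closure {g | ∃ v ∈ S.C, ∃ m : ℤ, g = (S.a v) ^ ((2 * S.h v + 1) * m)}

lemma nf_smul_K (hL : S.Large) (y : P) {k : G} (hk : k ∈ S.K) :
    ∀ z w w', S.NF y z w → S.NF y (k • z) w' → S.Sim y w w' := by
  unfold K at hk
  induction hk using Subgroup.closure_induction with
  | mem g hg =>
    obtain ⟨v, hv, m, rfl⟩ := hg
    intro z w w' h1 h2
    exact (nf_unique hL y ((S.cx y z).toNat +
      (S.cx y ((S.a v) ^ ((2 * S.h v + 1) * m) • z)).toNat + 1)).2 _ _ _ _ (by omega)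
      (by omega) ⟨v, hv, m, rfl⟩ h1 h2
  | one =>
    intro z w w' h1 h2
    rw [one_smul] at h2
    exact (nf_unique hL y ((S.cx y z).toNat + 1)).1 _ _ _ (by omega) h1 h2
  | mul g g' _ _ ih ih' =>
    intro z w w' h1 h2
    rw [mul_smul] at h2
    obtain ⟨w₁, hw₁⟩ := exists_nf hL y (g' • z)
    exact (ih' _ _ _ h1 hw₁).trans (ih _ _ _ hw₁ h2)
  | inv g _ ih =>
    intro z w w' h1 h2
    have h3 := ih (g⁻¹ • z) w' w h2 (by rwa [smul_inv_smul])
    exact h3.symm

/-- uniqueness of reduced points in `K`-orbits -/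
theorem sim_of_isRed (hL : S.Large) {y z : P} {k : G} (hk : k ∈ S.K) (h1 : S.IsRed y z)
    (h2 : S.IsRed y (k • z)) : S.Sim y z (k • z) :=
  nf_smul_K hL y hk z _ _ ⟨Relation.ReflTransGen.refl, h1⟩ ⟨Relation.ReflTransGen.refl, h2⟩

lemma isRed_self (hL : S.Large) (y : P) : S.IsRed y y := by
  intro v hv _ _
  have hθ := S.θ_nonneg
  have hlv := hL v hv
  rw [S.D_self, abs_zero]; omega

/-- **Greendlinger lemma**: if an element `k` of `K` moves `y` then there is a large angle between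
`y` and `k y`. -/
theorem greendlinger (hL : S.Large) {y : P} {k : G} (hk : k ∈ S.K) (h : k • y ≠ y) :
    ∃ v ∈ S.C, v ≠ y ∧ v ≠ k • y ∧ S.h v < |S.D v y (k • y)| := by
  by_contra hcon
  push Not at hcon
  apply h
  rcases sim_of_isRed hL hk (isRed_self hL y) (fun v hv h1 h2 => hcon v hv h1 h2) with
    h1 | ⟨h1, m, h2⟩
  · exact h1
  · rw [h2]; exact S.a_zpow_fix h1 _

end RotSys

end Pool.Agent.Helper88.Burn
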