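import Pool.Agent.Helper88.Burn.Rot

/-!
MP_70ec2f_al (graded Burnside): stabilisers in the group `K`.
-/

set_option autoImplicit false

namespace Pool.Agent.Helper88.Burn

namespace RotSys

variable {G P : Type*} [Group G] [MulAction G P] (S : RotSys G P)

/-- coordinates on the extended set of points -/
def extc (x : P) : P ⊕ G → P ⊕ G → ℤ
  | Sum.inl v, Sum.inl z => S.c v z
  | Sum.inl v, Sum.inr g => S.c v (g • x)
  | Sum.inr _, _ => 0

/-- rotations of the extended system -/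
def exta : P ⊕ G → G
  | Sum.inl v => S.a v
  | Sum.inr _ => 1

/-- exponents of the extended system -/
def exth : P ⊕ G → ℤ
  | Sum.inl v => S.h v
  | Sum.inr _ => 0

/-- the map `P ⊕ G → P` -/
def toP (x : P) : P ⊕ G → P
  | Sum.inl v => v
  | Sum.inr g => g • x

lemma toP_smul (x : P) (g : G) (z : P ⊕ G) : toP x (g • z) = g • toP x z := by
  rcases z with z | z
  · rfl
  · change (g * z) • x = g • (z • x)
    exact mul_smul _ _ _

lemma extc_eq (x v : P) (z : P ⊕ G) : S.extc x (Sum.inl v) z = S.c v (toP x z) := by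
  rcases z with z | z <;> rfl

lemma toP_ne {x v : P} (hx : x ∉ S.C) (hv : v ∈ S.C) {z : P ⊕ G} (hz : z ≠ Sum.inl v) :
    toP x z ≠ v := by
  rcases z with z | g
  · intro h; apply hz; rw [← h]; rfl
  · intro h
    apply hx
    have h1 := S.smul_mem g⁻¹ hv
    rw [← h] at h1
    change g⁻¹ • (g • x) ∈ S.C at h1
    rwa [inv_smul_smul] at h1

/-- the rotation system on `P ⊕ G` -/
def ext (x : P) (hx : x ∉ S.C) : RotSys G (P ⊕ G) where
  C := Sum.inl '' S.C
  smul_mem := by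
    rintro g _ ⟨v, hv, rfl⟩
    exact ⟨g • v, S.smul_mem g hv, rfl⟩
  c := S.extc x
  a := S.exta
  h := S.exth
  θ := S.θ
  θ_nonneg := S.θ_nonneg
  h_smul := by
    rintro g _ ⟨v, hv, rfl⟩
    exact S.h_smul g hv
  a_smul := by
    rintro g _ ⟨v, hv, rfl⟩
    exact S.a_smul g hv
  a_fix := by
    rintro _ ⟨v, hv, rfl⟩
    exact congrArg Sum.inl (S.a_fix hv)
  c_smul := by
    rintro g _ y z ⟨v, hv, rfl⟩ hy hz
    have h1 := S.c_smul g hv (S.toP_ne hx hv hy) (S.toP_ne hx hv hz)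
    have e : g • (Sum.inl v : P ⊕ G) = Sum.inl (g • v) := rfl
    rw [e, extc_eq, extc_eq, extc_eq, extc_eq, toP_smul, toP_smul]
    exact h1
  c_rot := by
    rintro _ y ⟨v, hv, rfl⟩ hy
    rw [extc_eq, extc_eq, toP_smul]
    exact S.c_rot hv (S.toP_ne hx hv hy)
  strong := by
    rintro _ _ z ⟨v, hv, rfl⟩ ⟨w, hw, rfl⟩ hvw hz1 hz2 h
    rw [extc_eq, extc_eq] at h
    rw [extc_eq, extc_eq]
    exact S.strong hv hw (fun h => hvw (congrArg Sum.inl h)) (S.toP_ne hx hv hz1)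
      (S.toP_ne hx hw hz2) h
  fin := by
    intro y z
    refine ((S.fin (toP x y) (toP x z)).image Sum.inl).subset ?_
    rintro _ ⟨⟨v, hv, rfl⟩, h1, h2, h3⟩
    rw [extc_eq, extc_eq] at h3
    exact ⟨v, ⟨hv, (S.toP_ne hx hv h1.symm).symm, (S.toP_ne hx hv h2.symm).symm, h3⟩, rfl⟩

variable {S}

lemma ext_K (x : P) (hx : x ∉ S.C) : (S.ext x hx).K = S.K := by
  unfold K
  congr 1
  ext g
  constructor
  · rintro ⟨_, ⟨v, hv, rfl⟩, m, hm⟩
    exact ⟨v, hv, m, hm⟩
  · rintro ⟨v, hv, m, hm⟩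
    exact ⟨Sum.inl v, ⟨v, hv, rfl⟩, m, hm⟩

/-- a point which is not a centre has trivial stabiliser in `K`; more generally an element `k` of
`K` such that `k x` is reduced relative to `x` is trivial -/
theorem eq_one_of_isRed (hL : S.Large) {x : P} (hx : x ∉ S.C) {k : G} (hk : k ∈ S.K)
    (h : S.IsRed x (k • x)) : k = 1 := by
  have hL' : (S.ext x hx).Large := by
    rintro _ ⟨v, hv, rfl⟩
    exact hL v hv
  by_contra hne
  obtain ⟨v, hv, h1, h2, h3⟩ := greendlinger hL' (y := Sum.inr 1) (k := k)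
    (by rw [ext_K]; exact hk) (by
      intro h
      apply hne
      have h4 : k • (Sum.inr 1 : P ⊕ G) = Sum.inr (k * 1) := rfl
      rw [h4, mul_one] at h
      exact Sum.inr_injective h)
  obtain ⟨v, hv, rfl⟩ := hv
  have h4 : (S.ext x hx).D (Sum.inl v) (Sum.inr 1) (k • Sum.inr 1) = S.D v x (k • x) := by
    have e1 : k • (Sum.inr 1 : P ⊕ G) = Sum.inr (k * 1) := rfl
    rw [e1]
    change S.c v ((k * 1) • x) - S.c v ((1 : G) • x) = S.c v (k • x) - S.c v x
    rw [mul_one, one_smul]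
  rw [h4] at h3
  have h5 : v ≠ x := by rintro rfl; exact hx hv
  have h6 : v ≠ k • x := by
    intro h7
    apply hx
    have h8 := S.smul_mem k⁻¹ hv
    rwa [h7, inv_smul_smul] at h8
  have h7 := h v hv h5 h6
  change S.h v < _ at h3
  omega

theorem eq_one_of_smul_eq (hL : S.Large) {x : P} (hx : x ∉ S.C) {k : G} (hk : k ∈ S.K)
    (h : k • x = x) : k = 1 :=
  eq_one_of_isRed hL hx hk (by rw [h]; exact isRed_self hL x)

/-- the stabiliser in `K` of a centre `v` is generated by `a v ^ n` -/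
theorem zpow_of_fix (hL : S.Large) {v x : P} (hv : v ∈ S.C) (hx : x ∉ S.C)
    (hvx : ∀ w ∈ S.C, w ≠ v → |S.D w v x| ≤ S.θ) {k : G} (hk : k ∈ S.K) (h : k • v = v) :
    ∃ m : ℤ, k = (S.a v) ^ ((2 * S.h v + 1) * m) := by
  have hθ := S.θ_nonneg
  have hlv := hL v hv
  have hxv : x ≠ v := by rintro rfl; exact hx hv
  have hkx : k • x ≠ v := by
    intro h1
    apply hxv
    exact MulAction.injective k (h1.trans h.symm)
  obtain ⟨m, hm⟩ := exists_mul_add_le (S.D v x (k • x)) (S.h v) (by omega)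
  set ρ := (S.a v) ^ ((2 * S.h v + 1) * m) with hρ
  have hρK : ρ ∈ S.K := Subgroup.subset_closure ⟨v, hv, m, rfl⟩
  have hfix : (ρ * k) • v = v := by rw [mul_smul, h, hρ, S.a_zpow_fix hv]
  have h1 : ρ * k = 1 := by
    refine eq_one_of_isRed hL hx (mul_mem hρK hk) ?_
    intro w hw hwx hwx'
    by_cases hwv : w = v
    · subst hwv
      rw [mul_smul, hρ, S.D_zpow hv hkx]
      exact hm
    · have hlw := hL w hw
      have e1 := S.D_add w x v ((ρ * k) • x)
      have e2 : |S.D w x v| ≤ S.θ := by rw [abs_D_symm]; exact hvx w hw hwv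
      have e3 : |S.D w v ((ρ * k) • x)| ≤ S.θ := by
        have e4 : (ρ * k)⁻¹ • w ∈ S.C := S.smul_mem _ hw
        have e5 : (ρ * k)⁻¹ • w ≠ v := by
          intro h; apply hwv; rw [inv_smul_eq_iff] at h; rw [h, hfix]
        have e6 := hvx _ e4 e5
        have e7 : x ≠ (ρ * k)⁻¹ • w := by
          rintro rfl; exact hx e4
        have e8 := S.D_smul (ρ * k) e4 (Ne.symm e5) e7
        rw [smul_inv_smul, hfix] at e8
        rw [e8]; exact e6
      have e4 := abs_add_le (S.D w x v) (S.D w v ((ρ * k) • x))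
      rw [e1] at e4
      omega
  refine ⟨-m, ?_⟩
  rw [mul_neg, zpow_neg]
  exact eq_inv_of_mul_eq_one_right h1

/-- the order of `a v` modulo `K` is exactly `2 h v + 1` -/
theorem dvd_of_zpow_mem (hL : S.Large) {v x : P} (hv : v ∈ S.C) (hx : x ∉ S.C)
    (hvx : ∀ w ∈ S.C, w ≠ v → |S.D w v x| ≤ S.θ) {j : ℤ} (hj : (S.a v) ^ j ∈ S.K) :
    (2 * S.h v + 1) ∣ j := by
  obtain ⟨m, hm⟩ := zpow_of_fix hL hv hx hvx hj (S.a_zpow_fix hv j)
  have hxv : x ≠ v := by rintro rfl; exact hx hv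
  have h1 := S.c_zpow hv hxv j
  have h2 := S.c_zpow hv hxv ((2 * S.h v + 1) * m)
  rw [hm] at h1
  exact ⟨m, by omega⟩

/-- `K` is normal -/
instance K_normal : S.K.Normal := by
  unfold K
  refine ⟨fun n hn g => ?_⟩
  induction hn using Subgroup.closure_induction with
  | mem k hk =>
    obtain ⟨v, hv, m, rfl⟩ := hk
    refine Subgroup.subset_closure ⟨g • v, S.smul_mem g hv, m, ?_⟩
    rw [S.h_smul g hv, S.a_smul g hv, conj_zpow]
  | one => simp
  | mul x y _ _ hx hy =>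
    have : g * (x * y) * g⁻¹ = (g * x * g⁻¹) * (g * y * g⁻¹) := by group
    rw [this]; exact mul_mem hx hy
  | inv x _ hx =>
    have : g * x⁻¹ * g⁻¹ = (g * x * g⁻¹)⁻¹ := by group
    rw [this]; exact inv_mem hx

end RotSys

end Pool.Agent.Helper88.Burn
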